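import Pool.Agent.KK.StmtsC

/-! Squad KK, row BLK (helper97). -/

set_option autoImplicit false

open scoped BigOperators

namespace Pool.Agent.KK.H97

/-- Few functions are not injective. -/
theorem ncard_noninj {α V : Type} [Fintype α] [DecidableEq α] [Fintype V] :
    {f : α → V | ¬ Function.Injective f}.ncard ≤
      (Fintype.card α) ^ 2 * (Fintype.card V) ^ (Fintype.card α - 1) := by
  classical
  have h1 : {f : α → V | ¬ Function.Injective f}.ncard =
      (Finset.univ.filter fun f : α → V => ¬ Function.Injective f).card := by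
    rw [Set.ncard_eq_toFinset_card']
    congr 1
    ext f
    simp
  rw [h1]
  have h2 : (Finset.univ.filter fun f : α → V => ¬ Function.Injective f) ⊆
      (Finset.univ.filter fun p : α × α => p.1 ≠ p.2).biUnion fun p =>
        Finset.univ.filter fun f : α → V => f p.1 = f p.2 := by
    intro f hf
    rw [Finset.mem_filter] at hf
    have := hf.2
    unfold Function.Injective at this
    push Not at this
    obtain ⟨a, b, h, hne⟩ := this
    rw [Finset.mem_biUnion]
    exact ⟨(a, b), by simpa using hne, by simpa using h⟩
  refine (Finset.card_le_card h2).trans ?_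
  refine (Finset.card_biUnion_le_card_mul _ _ ((Fintype.card V) ^ (Fintype.card α - 1)) ?_).trans ?_
  · rintro ⟨a, b⟩ hab
    have hne : a ≠ b := by simpa using hab
    have hcard : ((Fintype.card V) ^ (Fintype.card α - 1)) = Fintype.card ({x : α // x ≠ b} → V) := by
      rw [Fintype.card_fun]
      congr 1
      have := Set.card_ne_eq b
      rw [← this]
      rfl
    rw [hcard, ← Finset.card_univ]
    refine Finset.card_le_card_of_injOn (fun f x => f x.1) (fun _ _ => Finset.mem_univ _) ?_
    intro f hf g hg hfg
    have hf' : f a = f b := by simpa using hf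
    have hg' : g a = g b := by simpa using hg
    funext x
    by_cases hx : x = b
    · subst hx
      rw [← hf', ← hg']
      exact congrFun hfg ⟨a, hne⟩
    · exact congrFun hfg ⟨x, hx⟩
  · apply Nat.mul_le_mul_right
    refine (Finset.card_le_univ _).trans ?_
    rw [Fintype.card_prod, sq]

variable {V : Type}

/-- Windows of a list which runs cyclically through `k` columns are rotated transversals. -/
theorem window [DecidableEq V] {k : ℕ} (hk : 0 < k) (H : Finset (Finset V)) (X : Fin k → ℕ → V)
    (hE : ∀ g : Fin k → ℕ, (Finset.univ.image fun i => X i (g i)) ∈ H) (l : List V)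
    (hl : ∀ t (ht : t < l.length), l[t] = X ⟨t % k, Nat.mod_lt _ hk⟩ (t / k)) : Tight H k l := by
  intro s hs hsk
  obtain ⟨a, b, rfl⟩ := hs
  set p := a.length with hp
  set g : Fin k → ℕ := fun i => (p + (k - 1) - i.1) / k with hg
  have hs : ∀ j (hj : j < s.length), s[j] = X ⟨(p + j) % k, Nat.mod_lt _ hk⟩ ((p + j) / k) := by
    intro j hj
    have h1 : p + j < (a ++ s ++ b).length := by
      simp only [List.length_append]
      omega
    rw [← hl (p + j) h1]
    rw [List.getElem_append_left (by simp only [List.length_append]; omega)]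
    rw [List.getElem_append_right (by omega)]
    congr 1
    omega
  have hset : s.toFinset = Finset.univ.image fun i => X i (g i) := by
    ext v
    rw [List.mem_toFinset, List.mem_iff_getElem, Finset.mem_image]
    constructor
    · rintro ⟨j, hj, rfl⟩
      refine ⟨⟨(p + j) % k, Nat.mod_lt _ hk⟩, Finset.mem_univ _, ?_⟩
      rw [hs j hj]
      have h3 : g ⟨(p + j) % k, Nat.mod_lt _ hk⟩ = (p + j) / k := by
        simp only [hg]
        have h4 := Nat.mod_add_div (p + j) k
        have h5 := Nat.mod_lt (p + j) hk
        set u := (p + j) / k with hu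
        set i := (p + j) % k with hi
        rw [Nat.div_eq_iff hk]
        have h6 : k * u = u * k := Nat.mul_comm _ _
        constructor
        · omega
        · omega
      rw [h3]
    · rintro ⟨i, _, rfl⟩
      have hi := i.2
      have h4 := Nat.mod_add_div (p + (k - 1) - i.1) k
      have h5 := Nat.mod_lt (p + (k - 1) - i.1) hk
      have hgi : g i = (p + (k - 1) - i.1) / k := rfl
      rw [← hgi] at h4
      have h6 : k * g i = g i * k := Nat.mul_comm _ _
      have h7 : p ≤ g i * k + i.1 := by omega
      have h8 : g i * k + i.1 < p + k := by omega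
      refine ⟨g i * k + i.1 - p, by omega, ?_⟩
      rw [hs _ (by omega)]
      have h9 : p + (g i * k + i.1 - p) = i.1 + k * g i := by omega
      have h10 : (p + (g i * k + i.1 - p)) % k = i.1 := by
        rw [h9, Nat.add_mul_mod_self_left, Nat.mod_eq_of_lt hi]
      have h11 : (p + (g i * k + i.1 - p)) / k = g i := by
        rw [h9, Nat.add_mul_div_left _ _ hk, Nat.div_eq_of_lt hi, Nat.zero_add]
      rw [h11]
      congr 1
      exact Fin.ext h10
  rw [hset]
  exact hE g

/-- The list is without repetitions if the columns and heights determine the entries. -/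
theorem nodup_of {k m : ℕ} (hk : 0 < k) (X : Fin k → ℕ → V)
    (hX : ∀ i j u v, u < m → v < m → X i u = X j v → i = j ∧ u = v) (l : List V)
    (hlen : l.length = m * k)
    (hl : ∀ t (ht : t < l.length), l[t] = X ⟨t % k, Nat.mod_lt _ hk⟩ (t / k)) : l.Nodup := by
  rw [List.nodup_iff_injective_get]
  intro s t hst
  have hs := hl s.1 s.2
  have ht := hl t.1 t.2
  have h1 : l[s.1] = l[t.1] := hst
  rw [hs, ht] at h1
  have bs : s.1 / k < m := by
    rw [Nat.div_lt_iff_lt_mul hk]
    have := s.2
    omega
  have bt : t.1 / k < m := by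
    rw [Nat.div_lt_iff_lt_mul hk]
    have := t.2
    omega
  obtain ⟨h2, h3⟩ := hX _ _ _ _ bs bt h1
  have h4 : s.1 % k = t.1 % k := congrArg Fin.val h2
  apply Fin.ext
  rw [← Nat.mod_add_div s.1 k, ← Nat.mod_add_div t.1 k, h4, h3]

theorem dm {k t u : ℕ} (h1 : u * k ≤ t) (h2 : t < (u + 1) * k) :
    t % k = t - u * k ∧ t / k = u := by
  have hk : 0 < k := by
    rcases Nat.eq_zero_or_pos k with rfl | h
    · simp at h2
    · exact h
  have h3 : t / k = u := by
    rw [Nat.div_eq_iff hk]
    have : (u + 1) * k = u * k + k := by ring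
    constructor
    · omega
    · omega
  refine ⟨?_, h3⟩
  have h4 := Nat.mod_add_div t k
  rw [h3] at h4
  have h5 : k * u = u * k := Nat.mul_comm _ _
  omega

theorem blk (hCKQ : CkqStmt) : BlkStmt := by
  intro k q ρ hk hq hρ
  have hk0 : 0 < k := by omega
  have hqR : (0 : ℝ) < q := by exact_mod_cast hq
  set c0 : ℝ := (ρ / q) ^ (3 ^ k) with hc0
  have hc0p : 0 < c0 := by positivity
  refine ⟨c0 / 2, ⌈18 * (k : ℝ) ^ 2 / c0⌉₊ + 1, by positivity, ?_⟩
  intro V _ _ H T hn hU hT hρE
  have hn1 : 18 * (k : ℝ) ^ 2 / c0 ≤ (Fintype.card V : ℝ) := by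
    refine (Nat.le_ceil _).trans ?_
    exact_mod_cast (Nat.le_succ _).trans hn
  have hn0 : 0 < Fintype.card V := by omega
  have hnR : (0 : ℝ) < Fintype.card V := by exact_mod_cast hn0
  set N : ℝ := (Fintype.card V : ℝ) with hN
  -- pigeonhole
  obtain ⟨i, hi⟩ : ∃ i : Fin q, ρ / q * N ^ k ≤
      ({f : Fin k → V | EdgeIn H k (T i) (List.ofFn f)}.ncard : ℝ) := by
    by_contra hcon
    push Not at hcon
    have h1 : {f : Fin k → V | ∃ i, EdgeIn H k (T i) (List.ofFn f)} =
        ⋃ i : Fin q, {f : Fin k → V | EdgeIn H k (T i) (List.ofFn f)} := by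
      ext f
      simp
    have h2 : ({f : Fin k → V | ∃ i, EdgeIn H k (T i) (List.ofFn f)}.ncard : ℝ) ≤
        ∑ i : Fin q, ({f : Fin k → V | EdgeIn H k (T i) (List.ofFn f)}.ncard : ℝ) := by
      rw [h1]
      exact_mod_cast Set.ncard_iUnion_le_of_fintype _
    have h3 : ∑ i : Fin q, ({f : Fin k → V | EdgeIn H k (T i) (List.ofFn f)}.ncard : ℝ) <
        ∑ _i : Fin q, ρ / q * N ^ k := by
      apply Finset.sum_lt_sum_of_nonempty
      · exact ⟨⟨0, hq⟩, Finset.mem_univ _⟩
      · intro i _
        exact hcon i
    rw [Finset.sum_const, Finset.card_univ, Fintype.card_fin, nsmul_eq_mul] at h3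
    have h4 : (q : ℝ) * (ρ / q * N ^ k) = ρ * N ^ k := by
      field_simp
    linarith
  set E : Set (Fin k → V) := {f : Fin k → V | EdgeIn H k (T i) (List.ofFn f)} with hE
  have h1 := hCKQ k 3 (ρ / q) (by norm_num) (by positivity) V hn0 E hi
  rw [← hc0, ← hN] at h1
  set A : Set (Fin k → Fin 3 → V) := {x | ∀ g : Fin k → Fin 3, (fun i => x i (g i)) ∈ E} with hA
  set B : Set (Fin k → Fin 3 → V) :=
    {x | ¬ Function.Injective (fun p : Fin k × Fin 3 => x p.1 p.2)} with hB
  set W : Set ((Fin k → V) × (Fin k → V) × (Fin k → V)) := {b |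
          (∃ i, Seg H k (T i) (T i) (List.ofFn b.1 ++ List.ofFn b.2.2)) ∧
          Path H k (List.ofFn b.1 ++ List.ofFn b.2.1 ++ List.ofFn b.2.2)} with hW
  have hAB : A.ncard ≤ (A \ B).ncard + B.ncard := by
    have h : A ⊆ (A \ B) ∪ B := by
      intro x hx
      by_cases hb : x ∈ B
      · exact Or.inr hb
      · exact Or.inl ⟨hx, hb⟩
    exact (Set.ncard_le_ncard h (Set.toFinite _)).trans (Set.ncard_union_le _ _)
  have hBc : B.ncard ≤ (3 * k) ^ 2 * (Fintype.card V) ^ (3 * k - 1) := by
    have h := ncard_noninj (α := Fin k × Fin 3) (V := V)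
    have hc : Fintype.card (Fin k × Fin 3) = 3 * k := by
      rw [Fintype.card_prod, Fintype.card_fin, Fintype.card_fin]
      ring
    rw [hc] at h
    refine le_trans ?_ h
    refine Set.ncard_le_ncard_of_injOn (fun x p => x p.1 p.2) ?_ ?_ (Set.toFinite _)
    · intro x hx
      exact hx
    · intro x _ y _ hxy
      funext a b
      exact congrFun hxy (a, b)
  have hWc : (A \ B).ncard ≤ W.ncard := by
    refine Set.ncard_le_ncard_of_injOn
      (fun x => ((fun i => x i 0), (fun i => x i 1), (fun i => x i 2))) ?_ ?_ (Set.toFinite _)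
    · rintro x ⟨hxA, hxB⟩
      have hinj : Function.Injective (fun p : Fin k × Fin 3 => x p.1 p.2) := by
        by_contra hc
        exact hxB hc
      have hxE : ∀ g : Fin k → Fin 3, EdgeIn H k (T i) (List.ofFn fun i => x i (g i)) :=
        fun g => hxA g
      have himg : ∀ g : Fin k → Fin 3, (Finset.univ.image fun i => x i (g i)) ∈ H := by
        intro g
        have := (hxE g).2.2.1
        have e : (List.ofFn fun i => x i (g i)).toFinset = Finset.univ.image fun i => x i (g i) := by
          ext v
          simp [List.mem_ofFn]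
        rwa [e] at this
      have hinj' : ∀ a b u v, x a u = x b v → a = b ∧ u = v := by
        intro a b u v h
        have := @hinj (a, u) (b, v) h
        simpa using this
      -- the long list
      set l3 := List.ofFn (fun i => x i 0) ++ List.ofFn (fun i => x i 1) ++
        List.ofFn (fun i => x i 2) with hl3
      set X3 : Fin k → ℕ → V := fun i u => x i (if u = 0 then 0 else if u = 1 then 1 else 2) with hX3
      have e3 : ∀ t (ht : t < l3.length), l3[t] = X3 ⟨t % k, Nat.mod_lt _ hk0⟩ (t / k) := by
        intro t ht
        have ht3 : t < 3 * k := by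
          have : l3.length = 3 * k := by
            simp only [hl3, List.length_append, List.length_ofFn]
            ring
          omega
        rcases Nat.lt_or_ge t k with h | h
        · obtain ⟨d1, d2⟩ := @dm k t 0 (by omega) (by omega)
          have q1 : (⟨t % k, Nat.mod_lt _ hk0⟩ : Fin k) = ⟨t, h⟩ := Fin.ext (by simp only [d1]; omega)
          rw [q1, d2]
          simp only [hl3, hX3, if_true]
          rw [List.getElem_append_left (by simp only [List.length_append, List.length_ofFn]; omega),
            List.getElem_append_left (by simp only [List.length_ofFn]; omega), List.getElem_ofFn]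
        · rcases Nat.lt_or_ge t (2 * k) with h' | h'
          · obtain ⟨d1, d2⟩ := @dm k t 1 (by omega) (by omega)
            have q1 : (⟨t % k, Nat.mod_lt _ hk0⟩ : Fin k) = ⟨t - k, by omega⟩ :=
              Fin.ext (by simp only [d1]; omega)
            rw [q1, d2]
            simp only [hl3, hX3, one_ne_zero, if_false, if_true]
            rw [List.getElem_append_left (by simp only [List.length_append, List.length_ofFn]; omega),
              List.getElem_append_right (by simp only [List.length_ofFn]; omega), List.getElem_ofFn]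
            simp only [List.length_ofFn]
          · obtain ⟨d1, d2⟩ := @dm k t 2 (by omega) (by omega)
            have q1 : (⟨t % k, Nat.mod_lt _ hk0⟩ : Fin k) = ⟨t - (k + k), by omega⟩ :=
              Fin.ext (by simp only [d1]; omega)
            rw [q1, d2]
            simp only [hl3, hX3]
            rw [List.getElem_append_right
              (by simp only [List.length_append, List.length_ofFn]; omega), List.getElem_ofFn]
            simp only [List.length_append, List.length_ofFn]
            norm_num
      set l2 := List.ofFn (fun i => x i 0) ++ List.ofFn (fun i => x i 2) with hl2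
      set X2 : Fin k → ℕ → V := fun i u => x i (if u = 0 then 0 else 2) with hX2
      have e2 : ∀ t (ht : t < l2.length), l2[t] = X2 ⟨t % k, Nat.mod_lt _ hk0⟩ (t / k) := by
        intro t ht
        have ht2 : t < 2 * k := by
          have : l2.length = 2 * k := by
            simp only [hl2, List.length_append, List.length_ofFn]
            ring
          omega
        rcases Nat.lt_or_ge t k with h | h
        · obtain ⟨d1, d2⟩ := @dm k t 0 (by omega) (by omega)
          have q1 : (⟨t % k, Nat.mod_lt _ hk0⟩ : Fin k) = ⟨t, h⟩ := Fin.ext (by simp only [d1]; omega)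
          rw [q1, d2]
          simp only [hl2, hX2, if_true]
          rw [List.getElem_append_left (by simp only [List.length_ofFn]; omega), List.getElem_ofFn]
        · obtain ⟨d1, d2⟩ := @dm k t 1 (by omega) (by omega)
          have q1 : (⟨t % k, Nat.mod_lt _ hk0⟩ : Fin k) = ⟨t - k, by omega⟩ :=
            Fin.ext (by simp only [d1]; omega)
          rw [q1, d2]
          simp only [hl2, hX2, one_ne_zero, if_false]
          rw [List.getElem_append_right (by simp only [List.length_ofFn]; omega), List.getElem_ofFn]
          simp only [List.length_ofFn]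
      have len3 : l3.length = 3 * k := by
        simp only [hl3, List.length_append, List.length_ofFn]
        ring
      have len2 : l2.length = 2 * k := by
        simp only [hl2, List.length_append, List.length_ofFn]
        ring
      have path3 : Path H k l3 := by
        refine ⟨nodup_of (m := 3) hk0 X3 ?_ l3 len3 e3, window hk0 H X3 (fun g => himg _) l3 e3⟩
        intro a b u v hu hv h
        obtain ⟨h1, h2⟩ := hinj' _ _ _ _ h
        refine ⟨h1, ?_⟩
        interval_cases u <;> interval_cases v <;> simp_all
      have path2 : Path H k l2 := by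
        refine ⟨nodup_of (m := 2) hk0 X2 ?_ l2 len2 e2, window hk0 H X2 (fun g => himg _) l2 e2⟩
        intro a b u v hu hv h
        obtain ⟨h1, h2⟩ := hinj' _ _ _ _ h
        refine ⟨h1, ?_⟩
        interval_cases u <;> interval_cases v <;> simp_all
      refine ⟨⟨i, path2, by rw [len2]; omega, ?_, ?_⟩, path3⟩
      · have h := (hxE (fun _ => 0)).2.2.2.1
        change l2.take (k - 1) ∈ T i
        rw [hl2, List.take_append_of_le_length (by rw [List.length_ofFn]; omega)]
        exact h
      · have h := (hxE (fun _ => 2)).2.2.2.2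
        change l2.drop (l2.length - (k - 1)) ∈ T i
        rw [len2]
        have e : 2 * k - (k - 1) = (List.ofFn (fun i => x i 0)).length + 1 := by
          rw [List.length_ofFn]; omega
        rw [e, hl2, List.drop_append]
        simp only [List.length_ofFn]
        have e1 : List.drop (k + 1) (List.ofFn fun i => x i 0) = [] := by
          apply List.drop_eq_nil_of_le
          rw [List.length_ofFn]; omega
        have e2' : k + 1 - k = 1 := by omega
        rw [e1, e2', List.nil_append]
        exact h
    · intro x _ y _ hxy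
      simp only [Prod.mk.injEq] at hxy
      obtain ⟨h0, h1, h2⟩ := hxy
      funext a b
      fin_cases b
      · exact congrFun h0 a
      · exact congrFun h1 a
      · exact congrFun h2 a
  -- numbers
  have hfin : (A.ncard : ℝ) ≤ (W.ncard : ℝ) + (3 * k) ^ 2 * N ^ (3 * k - 1) := by
    have h : A.ncard ≤ W.ncard + (3 * k) ^ 2 * (Fintype.card V) ^ (3 * k - 1) := by omega
    have h' : (A.ncard : ℝ) ≤ ((W.ncard + (3 * k) ^ 2 * (Fintype.card V) ^ (3 * k - 1) : ℕ) : ℝ) := by
      exact_mod_cast h
    push_cast at h'
    exact h'
  have hpow : N ^ (3 * k) = N ^ (3 * k - 1) * N := by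
    rw [← pow_succ]
    congr 1
    omega
  have h5 : 9 * (k : ℝ) ^ 2 ≤ c0 / 2 * N := by
    rw [div_le_iff₀ hc0p] at hn1
    nlinarith
  have h6 : (3 * (k : ℝ)) ^ 2 * N ^ (3 * k - 1) ≤ c0 / 2 * N ^ (3 * k) := by
    rw [hpow]
    have hp : 0 ≤ N ^ (3 * k - 1) := by positivity
    nlinarith [mul_le_mul_of_nonneg_right h5 hp]
  have h7 : c0 * N ^ (3 * k) ≤ (A.ncard : ℝ) := h1
  nlinarith

end Pool.Agent.KK.H97
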