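import Pool.Agent.KK.StmtsD

/-! Squad KK, row DIC (helper97): exchange dichotomy. -/

set_option autoImplicit false

open scoped BigOperators

namespace Pool.Agent.KK.H97D

open Finset
open scoped Classical

/-- number of elements with property `p`, as a real number -/
noncomputable def c {α : Type} (p : α → Prop) : ℝ := ({x | p x}.ncard : ℝ)

theorem c_eq {α : Type} [Fintype α] (p : α → Prop) :
    c p = ∑ x, (if p x then (1 : ℝ) else 0) := by
  unfold c
  have h : {x | p x}.ncard = (univ.filter p).card := by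
    rw [Set.ncard_eq_toFinset_card']
    congr 1
    ext x
    simp
  rw [h, Finset.card_filter]
  push_cast
  rfl

theorem c_eq' {α : Type} [Fintype α] (p : α → Prop) [DecidablePred p] :
    ∑ x, (if p x then (1 : ℝ) else 0) = c p := by
  rw [c_eq]
  apply Finset.sum_congr rfl
  intro x _
  congr

theorem c_nonneg {α : Type} (p : α → Prop) : 0 ≤ c p := by
  unfold c
  positivity

theorem c_mono {α : Type} [Fintype α] {p q : α → Prop} (h : ∀ x, p x → q x) : c p ≤ c q := by
  rw [c_eq, c_eq]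
  apply Finset.sum_le_sum
  intro x _
  by_cases hp : p x
  · rw [if_pos hp, if_pos (h x hp)]
  · rw [if_neg hp]
    split_ifs <;> norm_num

theorem c_congr {α : Type} {p q : α → Prop} (h : ∀ x, p x ↔ q x) : c p = c q := by
  have : p = q := funext fun x => propext (h x)
  rw [this]

theorem c_or {α : Type} [Fintype α] (p q : α → Prop) : c (fun x => p x ∨ q x) ≤ c p + c q := by
  rw [c_eq, c_eq, c_eq, ← Finset.sum_add_distrib]
  apply Finset.sum_le_sum
  intro x _
  by_cases hp : p x <;> by_cases hq : q x <;> simp [hp, hq]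

theorem c_split {α : Type} [Fintype α] (p : α → Prop) : c p + c (fun x => ¬ p x) = Fintype.card α := by
  rw [c_eq, c_eq, ← Finset.sum_add_distrib]
  rw [← Finset.card_univ, Finset.card_eq_sum_ones]
  push_cast
  apply Finset.sum_congr rfl
  intro x _
  by_cases hp : p x <;> simp [hp]

theorem c_le_card {α : Type} [Fintype α] (p : α → Prop) : c p ≤ Fintype.card α := by
  have := c_split p
  have := c_nonneg (fun x => ¬ p x)
  linarith

theorem c_prod {α β : Type} [Fintype α] [Fintype β] (p : α → β → Prop) :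
    c (fun x : α × β => p x.1 x.2) = ∑ a, c (p a) := by
  rw [c_eq, Fintype.sum_prod_type]
  apply Finset.sum_congr rfl
  intro a _
  rw [c_eq]

theorem c_equiv {α β : Type} [Fintype α] [Fintype β] (e : α ≃ β) (p : β → Prop) :
    c (fun x => p (e x)) = c p := by
  rw [c_eq, c_eq]
  exact Equiv.sum_comp e (fun y => if p y then (1 : ℝ) else 0)

theorem c_fst {α β : Type} [Fintype α] [Fintype β] (p : α → Prop) :
    c (fun x : α × β => p x.1) = Fintype.card β * c p := by
  rw [c_prod (fun a (_ : β) => p a), c_eq p, Finset.mul_sum]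
  apply Finset.sum_congr rfl
  intro a _
  rw [c_eq]
  by_cases h : p a
  · simp [h]
  · simp [h]

theorem c_snd {α β : Type} [Fintype α] [Fintype β] (p : α → β → Prop) :
    c (fun x : α × β => p x.1 x.2) = ∑ b, c (fun a => p a b) := by
  have : c (fun x : α × β => p x.1 x.2) = c (fun x : β × α => p x.2 x.1) := by
    rw [← c_equiv (Equiv.prodComm β α)]
    rfl
  rw [this, c_prod (fun b a => p a b)]

theorem c_cons {V : Type} [Fintype V] {m : ℕ} (p : (Fin (m + 1) → V) → Prop) :
    c p = ∑ v, c (fun f : Fin m → V => p (Fin.cons v f)) := by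
  rw [← c_equiv (Fin.consEquiv (fun _ : Fin (m + 1) => V)), ← c_prod]
  rfl

/-- two large sets with a small intersection are nearly complementary -/
theorem agree {α : Type} [Fintype α] (p q : α → Prop) (μ : ℝ)
    (hp : (1 / 2 - μ) * Fintype.card α ≤ c p) (hq : (1 / 2 - μ) * Fintype.card α ≤ c q)
    (h : c (fun x => p x ∧ q x) ≤ μ * Fintype.card α) :
    c (fun x => p x ↔ q x) ≤ 4 * μ * Fintype.card α := by
  have key : c (fun x => p x ↔ q x) + c p + c q = Fintype.card α + 2 * c (fun x => p x ∧ q x) := by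
    rw [c_eq, c_eq, c_eq, c_eq, ← Finset.sum_add_distrib, ← Finset.sum_add_distrib,
      Finset.mul_sum, ← Finset.card_univ, Finset.card_eq_sum_ones]
    push_cast
    rw [← Finset.sum_add_distrib]
    apply Finset.sum_congr rfl
    intro x _
    by_cases hp : p x <;> by_cases hq : q x <;> simp [hp, hq]
    norm_num
  nlinarith

theorem select {V : Type} [Fintype V] (A : V → Prop) (ex : V → V → Prop) (κ n : ℝ) (hκ : 0 < κ)
    (hκ' : κ < 1 / 648) (hn0 : 0 < n) (hA : n / 18 ≤ c A)
    (hA' : n / 18 ≤ c (fun v => ¬ A v))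
    (hE : c (fun p : V × V => A p.1 ∧ ¬ A p.2 ∧ ex p.1 p.2) < κ * n ^ 2) :
    ∃ v₀ u₀, ¬ A v₀ ∧ A u₀ ∧ ¬ ex u₀ v₀ ∧ c (fun u => A u ∧ ex u v₀) ≤ 18 * κ * n ∧
      c (fun v => ¬ A v ∧ ex u₀ v) ≤ 36 * κ * n := by
  obtain ⟨v₀, hv, hv'⟩ : ∃ v₀, ¬ A v₀ ∧ c (fun u => A u ∧ ex u v₀) ≤ 18 * κ * n := by
    by_contra hcon
    push Not at hcon
    have h1 : c (fun p : V × V => A p.1 ∧ ¬ A p.2 ∧ ex p.1 p.2) =
        ∑ v, c (fun u => A u ∧ ¬ A v ∧ ex u v) :=
      c_snd (fun u v => A u ∧ ¬ A v ∧ ex u v)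
    have h2 : ∑ v, (if ¬ A v then (1 : ℝ) else 0) * (18 * κ * n) ≤
        ∑ v, c (fun u => A u ∧ ¬ A v ∧ ex u v) := by
      apply Finset.sum_le_sum
      intro v _
      by_cases hv : A v
      · rw [if_neg (by simpa using hv)]
        have := c_nonneg (fun u => A u ∧ ¬ A v ∧ ex u v)
        linarith
      · rw [if_pos hv, one_mul]
        refine (hcon v hv).le.trans (c_mono ?_)
        intro u hu
        exact ⟨hu.1, hv, hu.2⟩
    rw [← Finset.sum_mul, c_eq' (fun v => ¬ A v), ← h1] at h2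
    have h3 : n / 18 * (18 * κ * n) ≤ c (fun v => ¬ A v) * (18 * κ * n) :=
      mul_le_mul_of_nonneg_right hA' (by positivity)
    nlinarith
  obtain ⟨u₀, hu, hu1, hu2⟩ : ∃ u₀, A u₀ ∧ ¬ ex u₀ v₀ ∧
      c (fun v => ¬ A v ∧ ex u₀ v) ≤ 36 * κ * n := by
    by_contra hcon
    push Not at hcon
    set B : V → Prop := fun u => A u ∧ 36 * κ * n < c (fun v => ¬ A v ∧ ex u v) with hB
    have h0 : c A ≤ c (fun u => A u ∧ ex u v₀) + c B := by
      refine le_trans (c_mono ?_) (c_or _ _)
      intro u hu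
      by_cases h : ex u v₀
      · exact Or.inl ⟨hu, h⟩
      · exact Or.inr ⟨hu, hcon u hu h⟩
    have h1 : c (fun p : V × V => A p.1 ∧ ¬ A p.2 ∧ ex p.1 p.2) =
        ∑ u, c (fun v => A u ∧ ¬ A v ∧ ex u v) :=
      c_prod (fun u v => A u ∧ ¬ A v ∧ ex u v)
    have h2 : ∑ u, (if B u then (1 : ℝ) else 0) * (36 * κ * n) ≤
        ∑ u, c (fun v => A u ∧ ¬ A v ∧ ex u v) := by
      apply Finset.sum_le_sum
      intro u _
      by_cases hu : B u
      · rw [if_pos hu, one_mul]
        refine hu.2.le.trans (c_mono ?_)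
        intro v hv
        exact ⟨hu.1, hv.1, hv.2⟩
      · rw [if_neg hu]
        have := c_nonneg (fun v => A u ∧ ¬ A v ∧ ex u v)
        linarith
    rw [← Finset.sum_mul, c_eq' B, ← h1] at h2
    have h3 : c B * (36 * κ * n) < κ * n ^ 2 := lt_of_le_of_lt h2 hE
    have h4 : c B < n / 36 := by
      by_contra hc
      push Not at hc
      have : n / 36 * (36 * κ * n) ≤ c B * (36 * κ * n) :=
        mul_le_mul_of_nonneg_right hc (by positivity)
      nlinarith
    have h5 : 18 * κ * n < n / 36 := by nlinarith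
    linarith
  exact ⟨v₀, u₀, hv, hu, hu1, hv', hu2⟩

/-- link tuples of a vertex -/
def Lk {V : Type} [Fintype V] [DecidableEq V] (H : Finset (Finset V)) (m : ℕ) (u : V)
    (f : Fin m → V) : Prop := u ∉ univ.image f ∧ insert u (univ.image f) ∈ H

theorem image_cons {V : Type} [DecidableEq V] {m : ℕ} (v : V) (f : Fin m → V) :
    (univ.image (Fin.cons v f : Fin (m + 1) → V)) = insert v (univ.image f) := by
  ext x
  simp only [mem_image, mem_univ, true_and, mem_insert]
  constructor
  · rintro ⟨i, rfl⟩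
    refine Fin.cases ?_ ?_ i
    · left; rfl
    · intro j
      right
      exact ⟨j, by simp⟩
  · rintro (rfl | ⟨j, rfl⟩)
    · exact ⟨0, by simp⟩
    · exact ⟨j.succ, by simp⟩

theorem c_fix {V : Type} [Fintype V] {m : ℕ} (i : Fin m) (F : (Fin m → V) → V)
    (hF : ∀ f g : Fin m → V, (∀ j, j ≠ i → f j = g j) → F f = F g) :
    c (fun f : Fin m → V => f i = F f) ≤ (Fintype.card V : ℝ) ^ (m - 1) := by
  unfold c
  have h : {f : Fin m → V | f i = F f}.ncard ≤ (Fintype.card V) ^ (m - 1) := by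
    have hcard : (Fintype.card V) ^ (m - 1) = (Set.univ : Set ({x : Fin m // x ≠ i} → V)).ncard := by
      rw [Set.ncard_univ, Nat.card_eq_fintype_card, Fintype.card_fun]
      congr 1
      have := Set.card_ne_eq i
      rw [Fintype.card_fin] at this
      rw [← this]
      rfl
    rw [hcard]
    refine Set.ncard_le_ncard_of_injOn (fun f x => f x.1) (fun _ _ => Set.mem_univ _) ?_
      (Set.toFinite _)
    intro f hf g hg hfg
    have h1 : ∀ j, j ≠ i → f j = g j := fun j hj => congrFun hfg ⟨j, hj⟩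
    funext j
    by_cases hj : j = i
    · subst hj
      have h2 : f j = F f := hf
      have h3 : g j = F g := hg
      rw [h2, h3, hF f g h1]
    · exact h1 j hj
  exact_mod_cast h

theorem c_exists {α ι : Type} [Fintype α] [Fintype ι] (p : ι → α → Prop) :
    c (fun x => ∃ i, p i x) ≤ ∑ i, c (p i) := by
  have h : ∑ i, c (p i) = ∑ x, ∑ i, (if p i x then (1 : ℝ) else 0) := by
    rw [Finset.sum_comm]
    apply Finset.sum_congr rfl
    intro i _
    rw [c_eq]
  rw [h, c_eq]
  apply Finset.sum_le_sum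
  intro x _
  by_cases hx : ∃ i, p i x
  · rw [if_pos hx]
    obtain ⟨i, hi⟩ := hx
    have := Finset.single_le_sum (f := fun i => if p i x then (1 : ℝ) else 0) (s := univ)
      (fun i _ => by split_ifs <;> norm_num) (Finset.mem_univ i)
    simpa [hi] using this
  · rw [if_neg hx]
    apply Finset.sum_nonneg
    intro i _
    split_ifs <;> norm_num

/-- few tuples are not injective or meet `u` -/
theorem bad_tuples {V : Type} [Fintype V] (m : ℕ) (u : V) :
    c (fun g : Fin m → V => ¬ (Function.Injective g ∧ ∀ i, g i ≠ u)) ≤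
      (m ^ 2 + m : ℝ) * (Fintype.card V : ℝ) ^ (m - 1) := by
  have h1 : c (fun g : Fin m → V => ¬ (Function.Injective g ∧ ∀ i, g i ≠ u)) ≤
      c (fun g : Fin m → V => ∃ p : Fin m × Fin m, p.1 ≠ p.2 ∧ g p.1 = g p.2) +
      c (fun g : Fin m → V => ∃ i, g i = u) := by
    refine le_trans (c_mono ?_) (c_or _ _)
    intro g hg
    by_cases h : Function.Injective g
    · right
      by_contra hc
      push Not at hc
      exact hg ⟨h, hc⟩
    · left
      unfold Function.Injective at h
      push Not at h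
      obtain ⟨a, b, hab, hne⟩ := h
      exact ⟨(a, b), hne, hab⟩
  have h2 : c (fun g : Fin m → V => ∃ p : Fin m × Fin m, p.1 ≠ p.2 ∧ g p.1 = g p.2) ≤
      (m : ℝ) ^ 2 * (Fintype.card V : ℝ) ^ (m - 1) := by
    refine (c_exists _).trans ?_
    refine (Finset.sum_le_sum (g := fun _ => (Fintype.card V : ℝ) ^ (m - 1)) ?_).trans ?_
    · rintro ⟨a, b⟩ _
      by_cases hab : a = b
      · have : c (fun g : Fin m → V => (a, b).1 ≠ (a, b).2 ∧ g (a, b).1 = g (a, b).2) = 0 := by
          rw [c_eq]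
          apply Finset.sum_eq_zero
          intro g _
          rw [if_neg]
          rintro ⟨h, _⟩
          exact h hab
        rw [this]
        positivity
      · refine le_trans (c_mono (q := fun g : Fin m → V => g a = g b) (fun g hg => hg.2)) ?_
        exact c_fix a (fun g => g b) (fun f g h => h b (Ne.symm hab))
    · rw [Finset.sum_const, Finset.card_univ, Fintype.card_prod, Fintype.card_fin, nsmul_eq_mul]
      push_cast
      apply le_of_eq
      ring
  have h3 : c (fun g : Fin m → V => ∃ i, g i = u) ≤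
      (m : ℝ) * (Fintype.card V : ℝ) ^ (m - 1) := by
    refine (c_exists _).trans ?_
    refine (Finset.sum_le_sum (g := fun _ => (Fintype.card V : ℝ) ^ (m - 1)) ?_).trans ?_
    · intro i _
      exact c_fix i (fun _ => u) (fun _ _ _ => rfl)
    · rw [Finset.sum_const, Finset.card_univ, Fintype.card_fin, nsmul_eq_mul]
  linarith

/-- lower bound for the number of link tuples -/
theorem link_lower (m : ℕ) (hm : 1 ≤ m) (μ : ℝ) (hμ : 0 < μ) : ∃ n₀ : ℕ, 0 < n₀ ∧
    ∀ (V : Type) [Fintype V] [DecidableEq V] (H : Finset (Finset V)), n₀ ≤ Fintype.card V →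
    Dirac H (m + 2) → ∀ u : V,
      (1 / 2 - μ) * (Fintype.card V : ℝ) ^ (m + 1) ≤ c (Lk H (m + 1) u) := by
  refine ⟨⌈(m ^ 2 + m : ℝ) / μ⌉₊ + 1, by omega, ?_⟩
  intro V _ _ H hn hD u
  have hn1 : (m ^ 2 + m : ℝ) / μ ≤ (Fintype.card V : ℝ) := by
    refine (Nat.le_ceil _).trans ?_
    exact_mod_cast (Nat.le_succ _).trans hn
  have hn0 : (0 : ℝ) < Fintype.card V := by
    have : 0 < Fintype.card V := by omega
    exact_mod_cast this
  set n : ℝ := (Fintype.card V : ℝ) with hnn
  -- fibres
  have h1 : c (Lk H (m + 1) u) = ∑ g : Fin m → V, c (fun v => Lk H (m + 1) u (Fin.cons v g)) := by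
    rw [c_cons, ← c_prod (fun v g => Lk H (m + 1) u (Fin.cons v g)), c_snd (fun v g => Lk H (m + 1) u (Fin.cons v g))]
  have h2 : ∑ g : Fin m → V, (if Function.Injective g ∧ ∀ i, g i ≠ u then (1 : ℝ) else 0) * (n / 2) ≤
      ∑ g : Fin m → V, c (fun v => Lk H (m + 1) u (Fin.cons v g)) := by
    apply Finset.sum_le_sum
    intro g _
    by_cases hg : Function.Injective g ∧ ∀ i, g i ≠ u
    · rw [if_pos hg, one_mul]
      have hu : u ∉ univ.image g := by
        simp only [mem_image, mem_univ, true_and, not_exists]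
        exact hg.2
      have hcard : (insert u (univ.image g)).card = m + 2 - 1 := by
        rw [Finset.card_insert_of_notMem hu, Finset.card_image_of_injective _ hg.1,
          Finset.card_univ, Fintype.card_fin]
        omega
      have h3 := hD _ hcard
      have h4 : c (fun v => v ∈ nb H (insert u (univ.image g))) ≤
          c (fun v => Lk H (m + 1) u (Fin.cons v g)) := by
        apply c_mono
        intro v hv
        unfold nb at hv
        rw [mem_filter] at hv
        obtain ⟨_, hv1, hv2⟩ := hv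
        unfold Lk
        rw [image_cons]
        refine ⟨?_, ?_⟩
        · rw [mem_insert] at hv1 ⊢
          push Not at hv1 ⊢
          exact ⟨hv1.1.symm, hu⟩
        · rw [Finset.insert_comm]
          exact hv2
      have h5 : c (fun v => v ∈ nb H (insert u (univ.image g))) =
          ((nb H (insert u (univ.image g))).card : ℝ) := by
        unfold c
        rw [← Set.ncard_coe_finset]
        rfl
      have h6 : n ≤ 2 * ((nb H (insert u (univ.image g))).card : ℝ) := by
        rw [hnn]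
        exact_mod_cast h3
      rw [h5] at h4
      linarith
    · rw [if_neg hg]
      have := c_nonneg (fun v => Lk H (m + 1) u (Fin.cons v g))
      linarith
  rw [← h1, ← Finset.sum_mul, c_eq' (fun g : Fin m → V => Function.Injective g ∧ ∀ i, g i ≠ u)] at h2
  have h3 := bad_tuples (V := V) m u
  have h4 := c_split (fun g : Fin m → V => Function.Injective g ∧ ∀ i, g i ≠ u)
  rw [Fintype.card_fun, Fintype.card_fin] at h4
  push_cast at h4
  rw [← hnn] at h3 h4
  have h5 : (m ^ 2 + m : ℝ) * n ^ (m - 1) ≤ μ * n ^ m := by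
    have e : n ^ m = n ^ (m - 1) * n := by
      rw [← pow_succ]
      congr 1
      omega
    rw [e]
    rw [div_le_iff₀ hμ] at hn1
    have : 0 ≤ n ^ (m - 1) := by positivity
    nlinarith [mul_le_mul_of_nonneg_right hn1 this]
  have h6 : (1 - μ) * n ^ m * (n / 2) ≤ c (Lk H (m + 1) u) := by
    refine le_trans ?_ h2
    apply mul_le_mul_of_nonneg_right _ (by positivity)
    nlinarith
  refine le_trans ?_ h6
  have e : n ^ (m + 1) = n ^ m * n := pow_succ _ _
  rw [e]
  have : 0 ≤ n ^ m * n := by positivity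
  nlinarith

theorem comm_eq {V : Type} [Fintype V] [DecidableEq V] (H : Finset (Finset V)) (m : ℕ) (u v : V) :
    ((comm H (m + 2) u v : ℕ) : ℝ) = c (fun f => Lk H (m + 1) u f ∧ Lk H (m + 1) v f) := by
  unfold comm c
  congr 2
  ext f
  simp only [Set.mem_setOf_eq, Lk]
  constructor
  · rintro ⟨h1, h2, h3, h4⟩
    exact ⟨⟨h1, h3⟩, h2, h4⟩
  · rintro ⟨⟨h1, h3⟩, h2, h4⟩
    exact ⟨h1, h2, h3, h4⟩

theorem image_cons_mem {V : Type} [Fintype V] [DecidableEq V] (H : Finset (Finset V)) (m : ℕ)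
    (hU : Uni H (m + 2)) (v : V) (f : Fin (m + 1) → V) :
    univ.image (Fin.cons v f : Fin (m + 2) → V) ∈ H ↔ Lk H (m + 1) v f := by
  rw [image_cons]
  unfold Lk
  constructor
  · intro h
    refine ⟨?_, h⟩
    intro hv
    have h1 := hU _ h
    rw [Finset.insert_eq_of_mem hv] at h1
    have h2 : (univ.image f).card ≤ m + 1 := by
      refine Finset.card_image_le.trans ?_
      rw [Finset.card_univ, Fintype.card_fin]
    omega
  · intro h
    exact h.2

theorem xc_cons {V : Type} [Fintype V] [DecidableEq V] (X : Finset V) {m : ℕ} (v : V)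
    (f : Fin m → V) :
    xc X (Fin.cons v f : Fin (m + 1) → V) = (if v ∈ X then 1 else 0) + xc X f := by
  unfold xc
  rw [Finset.card_filter, Finset.card_filter, Fin.sum_univ_succ]
  simp only [Fin.cons_zero, Fin.cons_succ]

theorem xc_perm {V : Type} [Fintype V] [DecidableEq V] (X : Finset V) {m : ℕ} (x : Fin m → V)
    (σ : Equiv.Perm (Fin m)) : xc X (x ∘ σ) = xc X x := by
  unfold xc
  rw [Finset.card_filter, Finset.card_filter]
  exact Equiv.sum_comp σ (fun i => if x i ∈ X then 1 else 0)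

theorem image_perm {V : Type} [DecidableEq V] {m : ℕ} (x : Fin m → V)
    (σ : Equiv.Perm (Fin m)) : univ.image (x ∘ σ) = univ.image x := by
  ext v
  simp only [mem_image, mem_univ, true_and, Function.comp]
  constructor
  · rintro ⟨i, rfl⟩
    exact ⟨σ i, rfl⟩
  · rintro ⟨i, rfl⟩
    exact ⟨σ.symm i, by simp⟩

section
variable {V : Type} [Fintype V] [DecidableEq V]

/-- parity property -/
def Q (H : Finset (Finset V)) (X : Finset V) {m : ℕ} (x : Fin m → V) : Prop :=
  univ.image x ∈ H ↔ xc X x % 2 = 0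

/-- bad tuples for the first coordinate -/
def Bad (H : Finset (Finset V)) (X : Finset V) (v₀ : V) {m : ℕ} (x : Fin (m + 2) → V) : Prop :=
  ¬ (univ.image x ∈ H ↔ (Lk H (m + 1) v₀ (Fin.tail x) ↔ x 0 ∉ X))

theorem step0 (H : Finset (Finset V)) (X : Finset V) (v₀ : V) {m : ℕ} (z z' : Fin (m + 2) → V)
    (ht : Fin.tail z = Fin.tail z') (h : ¬ Bad H X v₀ z) (h' : ¬ Bad H X v₀ z') :
    Q H X z ↔ Q H X z' := by
  unfold Bad at h h'
  rw [not_not] at h h'
  have e : xc X z = (if z 0 ∈ X then 1 else 0) + xc X (Fin.tail z) := by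
    rw [← xc_cons, Fin.cons_self_tail]
  have e' : xc X z' = (if z' 0 ∈ X then 1 else 0) + xc X (Fin.tail z) := by
    rw [ht, ← xc_cons, Fin.cons_self_tail]
  unfold Q
  rw [h, h', e, e', ← ht]
  have hp : xc X (Fin.tail z) % 2 = 0 ∨ xc X (Fin.tail z) % 2 = 1 := by omega
  by_cases h1 : z 0 ∈ X <;> by_cases h2 : z' 0 ∈ X <;>
    by_cases h3 : Lk H (m + 1) v₀ (Fin.tail z) <;>
    simp only [h1, h2, h3, if_true, if_false, not_true, not_false_iff, true_iff, false_iff,
      iff_true, iff_false, zero_add] <;> omega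

theorem stepj (H : Finset (Finset V)) (X : Finset V) (v₀ : V) {m : ℕ} (j : Fin (m + 2))
    (z z' : Fin (m + 2) → V) (hz : ∀ i, i ≠ j → z i = z' i)
    (h : ¬ Bad H X v₀ (z ∘ Equiv.swap 0 j)) (h' : ¬ Bad H X v₀ (z' ∘ Equiv.swap 0 j)) :
    Q H X z ↔ Q H X z' := by
  have h1 : Q H X (z ∘ Equiv.swap 0 j) ↔ Q H X (z' ∘ Equiv.swap 0 j) := by
    refine step0 H X v₀ _ _ ?_ h h'
    funext i
    unfold Fin.tail
    simp only [Function.comp]
    apply hz
    intro hc
    have : Equiv.swap 0 j (Fin.succ i) = Equiv.swap 0 j 0 := by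
      rw [hc, Equiv.swap_apply_left]
    exact Fin.succ_ne_zero i ((Equiv.swap 0 j).injective this)
  unfold Q at h1 ⊢
  rw [image_perm, image_perm, xc_perm, xc_perm] at h1
  exact h1

/-- exchange the first `j` coordinates of two tuples -/
def mixE (V : Type) (m j : ℕ) : ((Fin m → V) × (Fin m → V)) ≃ ((Fin m → V) × (Fin m → V)) where
  toFun p := (fun i => if i.1 < j then p.2 i else p.1 i, fun i => if i.1 < j then p.1 i else p.2 i)
  invFun p := (fun i => if i.1 < j then p.2 i else p.1 i, fun i => if i.1 < j then p.1 i else p.2 i)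
  left_inv := by
    rintro ⟨x, y⟩
    apply Prod.ext <;> funext i <;> by_cases h : i.1 < j <;> simp [h]
  right_inv := by
    rintro ⟨x, y⟩
    apply Prod.ext <;> funext i <;> by_cases h : i.1 < j <;> simp [h]

omit [DecidableEq V] in
theorem c_mix {m : ℕ} (j : ℕ) (B : (Fin m → V) → Prop) :
    c (fun p : (Fin m → V) × (Fin m → V) => B (mixE V m j p).1) =
      (Fintype.card V : ℝ) ^ m * c B := by
  rw [c_equiv (mixE V m j) (fun p => B p.1), c_fst, Fintype.card_fun, Fintype.card_fin]
  push_cast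
  rfl

theorem hybrid (H : Finset (Finset V)) (X : Finset V) (v₀ : V) {m : ℕ} (x y : Fin (m + 2) → V)
    (h : ∀ j : Fin (m + 2), ¬ (Bad H X v₀ ((mixE V (m + 2) j.1 (x, y)).1 ∘ Equiv.swap 0 j) ∨
      Bad H X v₀ ((mixE V (m + 2) (j.1 + 1) (x, y)).1 ∘ Equiv.swap 0 j))) :
    Q H X x ↔ Q H X y := by
  have key : ∀ j ≤ m + 2, (Q H X (mixE V (m + 2) j (x, y)).1 ↔ Q H X x) := by
    intro j
    induction j with
    | zero =>
      intro _
      have : (mixE V (m + 2) 0 (x, y)).1 = x := by
        funext i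
        simp [mixE]
      rw [this]
    | succ j ih =>
      intro hj
      rw [← ih (by omega)]
      have hh := h ⟨j, by omega⟩
      push Not at hh
      refine (stepj H X v₀ ⟨j, by omega⟩ _ _ ?_ hh.1 hh.2).symm
      intro i hi
      have hij : i.1 ≠ j := fun hc => hi (Fin.ext hc)
      simp only [mixE, Equiv.coe_fn_mk]
      by_cases h1 : i.1 < j
      · rw [if_pos h1, if_pos (by omega)]
      · rw [if_neg h1, if_neg (by omega)]
  have h1 := key (m + 2) le_rfl
  have h2 : (mixE V (m + 2) (m + 2) (x, y)).1 = y := by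
    funext i
    simp [mixE]
  rw [h2] at h1
  exact h1.symm

/-- bound for the bad pairs -/
theorem pairs (H : Finset (Finset V)) (X : Finset V) (v₀ : V) (m : ℕ) :
    c (fun p : (Fin (m + 2) → V) × (Fin (m + 2) → V) => ¬ (Q H X p.1 ↔ Q H X p.2)) ≤
      2 * (m + 2 : ℝ) * (Fintype.card V : ℝ) ^ (m + 2) *
        c (fun x : Fin (m + 2) → V => Bad H X v₀ x) := by
  have hB : ∀ (j : Fin (m + 2)) (t : ℕ),
      c (fun p : (Fin (m + 2) → V) × (Fin (m + 2) → V) =>
        Bad H X v₀ ((mixE V (m + 2) t p).1 ∘ Equiv.swap 0 j)) =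
      (Fintype.card V : ℝ) ^ (m + 2) * c (fun x : Fin (m + 2) → V => Bad H X v₀ x) := by
    intro j t
    rw [c_mix t (fun x => Bad H X v₀ (x ∘ Equiv.swap 0 j))]
    congr 1
    exact c_equiv (Equiv.arrowCongr (Equiv.swap 0 j) (Equiv.refl V))
      (fun x : Fin (m + 2) → V => Bad H X v₀ x)
  have h1 : c (fun p : (Fin (m + 2) → V) × (Fin (m + 2) → V) => ¬ (Q H X p.1 ↔ Q H X p.2)) ≤
      c (fun p : (Fin (m + 2) → V) × (Fin (m + 2) → V) => ∃ j : Fin (m + 2),
        Bad H X v₀ ((mixE V (m + 2) j.1 p).1 ∘ Equiv.swap 0 j) ∨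
        Bad H X v₀ ((mixE V (m + 2) (j.1 + 1) p).1 ∘ Equiv.swap 0 j)) := by
    apply c_mono
    rintro ⟨x, y⟩ hxy
    by_contra hc
    push Not at hc
    apply hxy
    apply hybrid H X v₀ x y
    intro j
    push Not
    exact hc j
  refine h1.trans ((c_exists _).trans ?_)
  refine (Finset.sum_le_sum (g := fun _ => 2 * ((Fintype.card V : ℝ) ^ (m + 2) *
    c (fun x : Fin (m + 2) → V => Bad H X v₀ x))) ?_).trans ?_
  · intro j _
    refine (c_or _ _).trans ?_
    rw [hB j j.1, hB j (j.1 + 1)]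
    apply le_of_eq
    ring
  · rw [Finset.sum_const, Finset.card_univ, Fintype.card_fin, nsmul_eq_mul]
    push_cast
    apply le_of_eq
    ring

end

theorem dic : DicStmt := by
  intro k η hk hη
  obtain ⟨m, rfl⟩ : ∃ m, k = m + 2 := ⟨k - 2, by omega⟩
  have hm : 1 ≤ m := by omega
  set K : ℝ := (m + 2 : ℝ) with hK
  have hKp : 0 < K := by positivity
  set μ : ℝ := min (1 / 8) (η / (32 * K)) with hμd
  set κ : ℝ := min (1 / 1000) (η / (216 * K)) with hκd
  have hμ : 0 < μ := by
    rw [hμd, lt_min_iff]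
    exact ⟨by norm_num, by positivity⟩
  have hκ : 0 < κ := by
    rw [hκd, lt_min_iff]
    exact ⟨by norm_num, by positivity⟩
  have hμ1 : μ * (32 * K) ≤ η := by
    have := min_le_right (1 / 8 : ℝ) (η / (32 * K))
    rw [← hμd, le_div_iff₀ (by positivity)] at this
    exact this
  have hκ1 : κ * (216 * K) ≤ η := by
    have := min_le_right (1 / 1000 : ℝ) (η / (216 * K))
    rw [← hκd, le_div_iff₀ (by positivity)] at this
    exact this
  have hκ2 : κ < 1 / 648 := by
    have := min_le_left (1 / 1000 : ℝ) (η / (216 * K))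
    rw [← hκd] at this
    linarith
  obtain ⟨n₀, hn₀, hlow⟩ := link_lower m hm μ hμ
  refine ⟨μ, κ, n₀, hμ, min_le_left _ _, hκ, ?_⟩
  intro V _ _ H hn hU hD
  by_cases hex : Exch H (m + 2) μ κ
  · exact Or.inl hex
  right
  unfold Exch at hex
  push Not at hex
  obtain ⟨A, hA, hA', hE⟩ := hex
  have hn0 : (0 : ℝ) < Fintype.card V := by
    have : 0 < Fintype.card V := by omega
    exact_mod_cast this
  set n : ℝ := (Fintype.card V : ℝ) with hnn
  have hN1 : ((Fintype.card (Fin (m + 1) → V) : ℕ) : ℝ) = n ^ (m + 1) := by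
    rw [Fintype.card_fun, Fintype.card_fin]
    push_cast
    rfl
  obtain ⟨v₀, u₀, hv₀, hu₀, hne, hs1, hs2⟩ := select (fun v => v ∈ A)
    (fun u v => μ * n ^ (m + 1) ≤ comm H (m + 2) u v) κ n hκ hκ2 hn0
    (by
      have : c (fun v => v ∈ A) = (A.ncard : ℝ) := rfl
      rw [this]
      linarith)
    (by
      have : c (fun v => ¬ v ∈ A) = (Aᶜ.ncard : ℝ) := rfl
      rw [this]
      linarith) hE
  have hD4 : ∀ u v, ¬ μ * n ^ (m + 1) ≤ comm H (m + 2) u v →
      c (fun f => Lk H (m + 1) u f ↔ Lk H (m + 1) v f) ≤ 4 * μ * n ^ (m + 1) := by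
    intro u v h
    push Not at h
    rw [comm_eq] at h
    have := agree (Lk H (m + 1) u) (Lk H (m + 1) v) μ (by rw [hN1]; exact hlow V H hn hD u)
      (by rw [hN1]; exact hlow V H hn hD v) (by rw [hN1]; exact h.le)
    rw [hN1] at this
    exact this
  set X : Finset V := univ.filter (fun v => v ∈ A) with hX
  have hXA : ∀ v, v ∈ X ↔ v ∈ A := by
    intro v
    rw [hX, mem_filter]
    simp
  -- the bad tuples
  have hBad : c (fun x : Fin (m + 2) → V => Bad H X v₀ x) ≤ (8 * μ + 54 * κ) * n ^ (m + 2) := by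
    rw [c_cons]
    have hfib : ∀ v, c (fun f : Fin (m + 1) → V => Bad H X v₀ (Fin.cons v f : Fin (m + 2) → V)) ≤
        8 * μ * n ^ (m + 1) +
        (if v ∈ A ∧ μ * n ^ (m + 1) ≤ comm H (m + 2) v v₀ then (1 : ℝ) else 0) * n ^ (m + 1) +
        (if ¬ v ∈ A ∧ μ * n ^ (m + 1) ≤ comm H (m + 2) u₀ v then (1 : ℝ) else 0) *
          n ^ (m + 1) := by
      intro v
      have hNp : 0 < n ^ (m + 1) := by positivity
      have hμN : 0 < μ * n ^ (m + 1) := by positivity
      have hi1 : 0 ≤ (if v ∈ A ∧ μ * n ^ (m + 1) ≤ comm H (m + 2) v v₀ then (1 : ℝ) else 0) *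
          n ^ (m + 1) := by
        split_ifs <;> nlinarith
      have hi2 : 0 ≤ (if ¬ v ∈ A ∧ μ * n ^ (m + 1) ≤ comm H (m + 2) u₀ v then (1 : ℝ) else 0) *
          n ^ (m + 1) := by
        split_ifs <;> nlinarith
      have htriv := c_le_card (fun f : Fin (m + 1) → V =>
        Bad H X v₀ (Fin.cons v f : Fin (m + 2) → V))
      rw [hN1] at htriv
      have hbad : ∀ f : Fin (m + 1) → V, Bad H X v₀ (Fin.cons v f : Fin (m + 2) → V) ↔
          ¬ (Lk H (m + 1) v f ↔ (Lk H (m + 1) v₀ f ↔ v ∉ A)) := by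
        intro f
        unfold Bad
        rw [image_cons_mem H m hU, Fin.tail_cons, Fin.cons_zero, hXA]
      by_cases hvA : v ∈ A
      · by_cases hexv : μ * n ^ (m + 1) ≤ comm H (m + 2) v v₀
        · rw [if_pos ⟨hvA, hexv⟩] at hi1 ⊢
          linarith
        · have h1 : c (fun f : Fin (m + 1) → V => Bad H X v₀ (Fin.cons v f : Fin (m + 2) → V)) ≤
              c (fun f => Lk H (m + 1) v f ↔ Lk H (m + 1) v₀ f) := by
            apply c_mono
            intro f hf
            rw [hbad] at hf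
            tauto
          have h2 := hD4 v v₀ hexv
          linarith
      · by_cases hexv : μ * n ^ (m + 1) ≤ comm H (m + 2) u₀ v
        · rw [if_pos (show ¬ v ∈ A ∧ μ * n ^ (m + 1) ≤ comm H (m + 2) u₀ v from ⟨hvA, hexv⟩)]
            at hi2 ⊢
          linarith
        · have h1 : c (fun f : Fin (m + 1) → V => Bad H X v₀ (Fin.cons v f : Fin (m + 2) → V)) ≤
              c (fun f => Lk H (m + 1) u₀ f ↔ Lk H (m + 1) v f) +
              c (fun f => Lk H (m + 1) u₀ f ↔ Lk H (m + 1) v₀ f) := by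
            refine le_trans (c_mono ?_) (c_or _ _)
            intro f hf
            rw [hbad] at hf
            tauto
          have h2 := hD4 u₀ v hexv
          have h3 := hD4 u₀ v₀ hne
          linarith
    refine (Finset.sum_le_sum (fun v _ => hfib v)).trans ?_
    rw [Finset.sum_add_distrib, Finset.sum_add_distrib, Finset.sum_const, Finset.card_univ,
      nsmul_eq_mul, ← hnn, ← Finset.sum_mul, ← Finset.sum_mul,
      c_eq' (fun v => v ∈ A ∧ μ * n ^ (m + 1) ≤ comm H (m + 2) v v₀),
      c_eq' (fun v => ¬ v ∈ A ∧ μ * n ^ (m + 1) ≤ comm H (m + 2) u₀ v)]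
    have hNp : 0 < n ^ (m + 1) := by positivity
    have e : n ^ (m + 2) = n * n ^ (m + 1) := by ring
    rw [e]
    have h1 := mul_le_mul_of_nonneg_right hs1 hNp.le
    have h2 := mul_le_mul_of_nonneg_right hs2 hNp.le
    nlinarith
  have hpairs := pairs H X v₀ m
  rw [← hnn, c_snd (fun x y : Fin (m + 2) → V => ¬ (Q H X x ↔ Q H X y))] at hpairs
  have hNN : ((Fintype.card (Fin (m + 2) → V) : ℕ) : ℝ) = n ^ (m + 2) := by
    rw [Fintype.card_fun, Fintype.card_fin]
    push_cast
    rfl
  have hNp : 0 < n ^ (m + 2) := by positivity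
  have hη' : 2 * K * (8 * μ + 54 * κ) ≤ η := by nlinarith
  obtain ⟨y, _, hy⟩ : ∃ y ∈ (univ : Finset (Fin (m + 2) → V)),
      c (fun x : Fin (m + 2) → V => ¬ (Q H X x ↔ Q H X y)) ≤ η * n ^ (m + 2) := by
    apply Finset.exists_le_of_sum_le (g := fun _ => η * n ^ (m + 2))
    · rw [Finset.univ_nonempty_iff]
      have : 0 < Fintype.card (Fin (m + 2) → V) := by
        rw [← hNN] at hNp
        exact_mod_cast hNp
      exact Fintype.card_pos_iff.mp this
    · rw [Finset.sum_const, Finset.card_univ, nsmul_eq_mul, hNN]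
      refine hpairs.trans ?_
      have h1 : 2 * (m + 2 : ℝ) * n ^ (m + 2) * c (fun x : Fin (m + 2) → V => Bad H X v₀ x) ≤
          2 * K * n ^ (m + 2) * ((8 * μ + 54 * κ) * n ^ (m + 2)) := by
        rw [← hK]
        apply mul_le_mul_of_nonneg_left hBad
        positivity
      refine h1.trans ?_
      have h2 : 0 ≤ n ^ (m + 2) * n ^ (m + 2) := by positivity
      nlinarith [mul_le_mul_of_nonneg_right hη' h2]
  refine ⟨X, if Q H X y then 0 else 1, ?_, ?_, ?_⟩
  · have : (X.card : ℝ) = A.ncard := by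
      have : A = (X : Set V) := by
        ext v
        simp [hXA]
      rw [this, Set.ncard_coe_finset]
    rw [this]
    linarith
  · have : ((Xᶜ).card : ℝ) = (Aᶜ).ncard := by
      have : Aᶜ = ((Xᶜ : Finset V) : Set V) := by
        ext v
        simp [hXA]
      rw [this, Set.ncard_coe_finset]
    rw [this]
    linarith
  · refine le_trans ?_ hy
    refine c_mono (p := fun f : Fin (m + 2) → V => Function.Injective f ∧
      ¬ (Finset.univ.image f ∈ H ↔ xc X f % 2 = (if Q H X y then 0 else 1) % 2)) ?_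
    rintro f ⟨_, hf⟩ hq
    apply hf
    by_cases hQ : Q H X y
    · rw [if_pos hQ]
      exact hq.mpr hQ
    · rw [if_neg hQ]
      have hQf : ¬ Q H X f := fun h => hQ (hq.mp h)
      unfold Q at hQf
      have h2 : xc X f % 2 = 0 ∨ xc X f % 2 = 1 := by omega
      by_cases h3 : Finset.univ.image f ∈ H
      · simp only [h3, true_iff] at hQf ⊢
        omega
      · simp only [h3, false_iff, not_not] at hQf ⊢
        omega

end Pool.Agent.KK.H97D
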