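import Pool.Agent.KK.StmtsG

/-!
# Squad KK, row G_CST (StmtG13), helper97 (adapted from Helper37_KK/E_CST)
-/

set_option autoImplicit false

namespace Pool.Agent.KK.E.H97

theorem g_cst : StmtG13 := by
  intro k B ε hk hε hε1
  have hk0 : (0 : ℝ) < k := by
    have : 0 < k := by omega
    exact_mod_cast this
  have hk1 : (1 : ℝ) ≤ k := by
    have : 1 ≤ k := by omega
    exact_mod_cast this
  have hB : (0 : ℝ) < (B : ℝ) + 1 := by positivity
  obtain ⟨P, hP⟩ : ∃ P : ℝ, P = 8 * (k : ℝ) * 4 ^ k * ((B : ℝ) + 1) := ⟨_, rfl⟩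
  have hP0 : 0 < P := by rw [hP]; positivity
  have h4 : (1 : ℝ) ≤ 4 ^ k * ((B : ℝ) + 1) := by
    have h2 : (1 : ℝ) ≤ 4 ^ k := one_le_pow₀ (by norm_num)
    have h3 : (1 : ℝ) ≤ (B : ℝ) + 1 := by
      have : (0 : ℝ) ≤ B := Nat.cast_nonneg B
      linarith
    exact one_le_mul_of_one_le_of_one_le h2 h3
  have hPk : (k : ℝ) ≤ P := by
    have : P = 8 * (k : ℝ) * (4 ^ k * ((B : ℝ) + 1)) := by rw [hP]; ring
    rw [this]
    nlinarith
  obtain ⟨h, hh⟩ : ∃ h : ℝ, h = 1 / (8 * (k : ℝ) * 2 ^ k) := ⟨_, rfl⟩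
  have hh0 : 0 < h := by rw [hh]; positivity
  have hh1 : h ≤ 1 := by
    rw [hh, div_le_one (by positivity)]
    have h2 : (1 : ℝ) ≤ 2 ^ k := one_le_pow₀ (by norm_num)
    have h3 : (1 : ℝ) ≤ 8 * (k : ℝ) := by linarith
    exact one_le_mul_of_one_le_of_one_le h3 h2
  obtain ⟨G, hG⟩ : ∃ G : ℝ → ℝ, ∀ x, G x = min (ε * x / (32 * P))
      (ε * ((x * h / (16 * (k : ℝ))) ^ 3) ^ (2 ^ k) / (32 * (k : ℝ))) := ⟨_, fun x => rfl⟩
  obtain ⟨e, he0, hes⟩ : ∃ e : ℕ → ℝ, e 0 = 1 / 2 ∧ ∀ i, e (i + 1) = G (e i) :=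
    ⟨fun n => Nat.rec (1 / 2) (fun _ x => G x) n, rfl, fun i => rfl⟩
  have hG0 : ∀ x, 0 < x → 0 < G x := by
    intro x hx
    rw [hG]
    exact lt_min (by positivity) (by positivity)
  have hG1 : ∀ x, 0 < x → 32 * P * G x ≤ ε * x := by
    intro x hx
    have h1 : G x ≤ ε * x / (32 * P) := by
      rw [hG]
      exact min_le_left _ _
    rw [le_div_iff₀ (by positivity)] at h1
    linarith
  have hG2 : ∀ x, 32 * (k : ℝ) * G x ≤ ε * ((x * h / (16 * (k : ℝ))) ^ 3) ^ (2 ^ k) := by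
    intro x
    have h1 : G x ≤ ε * ((x * h / (16 * (k : ℝ))) ^ 3) ^ (2 ^ k) / (32 * (k : ℝ)) := by
      rw [hG]
      exact min_le_right _ _
    rw [le_div_iff₀ (by positivity)] at h1
    linarith
  have hep : ∀ i, 0 < e i := by
    intro i
    induction i with
    | zero => rw [he0]; norm_num
    | succ i ih => rw [hes]; exact hG0 _ ih
  have hG3 : ∀ x, 0 < x → P * G x ≤ x := by
    intro x hx
    have h1 := hG1 x hx
    have h2 := mul_pos hP0 (hG0 x hx)
    nlinarith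
  have hG4 : ∀ x, 0 < x → 32 * (k : ℝ) * G x ≤ ε * x := by
    intro x hx
    have h1 := hG1 x hx
    have h2 := hG0 x hx
    have h3 := mul_le_mul_of_nonneg_right hPk h2.le
    linarith
  have hGx : ∀ x, 0 < x → G x ≤ x := by
    intro x hx
    have h1 := hG4 x hx
    have h2 := hG0 x hx
    nlinarith
  have heh : ∀ i, e i ≤ 1 / 2 := by
    intro i
    induction i with
    | zero => rw [he0]
    | succ i ih => rw [hes]; exact (hGx _ (hep i)).trans ih
  have hC : (0 : ℝ) < 100 * (k : ℝ) * 4 ^ k * ((B : ℝ) + 1) := by positivity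
  have hek := hep k
  have hehk : e k * h ≤ 1 / 2 := by
    have := mul_le_mul (heh k) hh1 hh0.le (by norm_num : (0 : ℝ) ≤ 1 / 2)
    linarith
  have hehp : 0 < e k * h := mul_pos hek hh0
  refine ⟨fun m => e (k - m), fun i => (e (k - i) * h / (16 * (k : ℝ))) ^ 3, h,
    ε * (e k * h) / (100 * (k : ℝ) * 4 ^ k * ((B : ℝ) + 1)), by positivity, ?_, ?_⟩
  · rw [div_le_iff₀ hC]
    have h3 : ε * (e k * h) ≤ 1 / 2 := by nlinarith
    have e1 : 100 * (k : ℝ) * 4 ^ k * ((B : ℝ) + 1) = 100 * (k * (4 ^ k * ((B : ℝ) + 1))) := by ring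
    rw [e1]
    have h5 : (1 : ℝ) ≤ k * (4 ^ k * ((B : ℝ) + 1)) := one_le_mul_of_one_le_of_one_le hk1 h4
    linarith
  · intro δ hδ hδ0
    rw [le_div_iff₀ hC] at hδ0
    have hεe : ε * (e k * h) ≤ e k * h := by nlinarith
    refine ⟨⟨?_, ?_, hh0, ?_, ?_, ?_, ?_, ?_, hδ, ?_⟩, hε, hε1, ?_, ?_, ?_⟩
    · intro i _
      exact hep _
    · intro i _
      exact heh _
    · rw [hh]
    · intro i hi
      have e1 : k - i = (k - (i + 1)) + 1 := by omega
      change 8 * (k : ℝ) * 4 ^ k * ((B : ℝ) + 1) * e (k - i) ≤ e (k - (i + 1))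
      rw [e1, hes, ← hP]
      exact hG3 _ (hep _)
    · intro i _ _
      have := hep (k - i)
      positivity
    · intro i _ _
      exact le_rfl
    · intro i hi hik
      have e1 : k - (i - 1) = (k - i) + 1 := by omega
      change 16 * (k : ℝ) * e (k - (i - 1)) ≤ ((e (k - i) * h / (16 * (k : ℝ))) ^ 3) ^ (2 ^ k)
      rw [e1, hes]
      have h1 := hG2 (e (k - i))
      have h2 : 0 ≤ ((e (k - i) * h / (16 * (k : ℝ))) ^ 3) ^ (2 ^ k) := by
        have := hep (k - i)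
        positivity
      have h3 := hG0 _ (hep (k - i))
      have h5 : ε * ((e (k - i) * h / (16 * (k : ℝ))) ^ 3) ^ (2 ^ k) ≤
          ((e (k - i) * h / (16 * (k : ℝ))) ^ 3) ^ (2 ^ k) := by nlinarith
      have h6 : 0 < (k : ℝ) * G (e (k - i)) := mul_pos hk0 h3
      linarith
    · rw [Nat.sub_zero]
      linarith
    · intro i hi
      have e1 : k - i = (k - (i + 1)) + 1 := by omega
      change 32 * (k : ℝ) * e (k - i) ≤ ε * e (k - (i + 1))
      rw [e1, hes]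
      exact hG4 _ (hep _)
    · intro i hi hik
      have e1 : k - (i - 1) = (k - i) + 1 := by omega
      change 32 * (k : ℝ) * e (k - (i - 1)) ≤
        ε * ((e (k - i) * h / (16 * (k : ℝ))) ^ 3) ^ (2 ^ k)
      rw [e1, hes]
      exact hG2 _
    · change 100 * (k : ℝ) * δ ≤ ε * e (k - 0)
      rw [Nat.sub_zero]
      have e1 : δ * (100 * (k : ℝ) * 4 ^ k * ((B : ℝ) + 1)) =
          100 * (k : ℝ) * δ * (4 ^ k * ((B : ℝ) + 1)) := by ring
      rw [e1] at hδ0
      have h1 : 0 ≤ 100 * (k : ℝ) * δ := by positivity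
      have h2 : 100 * (k : ℝ) * δ ≤ 100 * (k : ℝ) * δ * (4 ^ k * ((B : ℝ) + 1)) := by
        nlinarith
      have h3 : ε * (e k * h) ≤ ε * e k := by
        apply mul_le_mul_of_nonneg_left _ hε.le
        nlinarith
      linarith

end Pool.Agent.KK.E.H97
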